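import Mathlib

/-!
Abstract engine for the equality of the tangent algebra of the group of local automorphisms and the
space of local derivations.

`E` is a finite-dimensional real normed algebra acting linearly on a finite-dimensional real normed
space `V`.  `P : E → B` is a differentiable map whose zero set among the units is a group `G`, and
`P' 1` is its derivative at the unit, with kernel the Lie algebra `g` of `G`.
-/

set_option autoImplicit false

namespace Pool.Agent.H49

open Set Filter Topology NormedSpace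

/-- The hypotheses used by the abstract engine. -/
structure GroupData {E V B : Type*}
    [NormedRing E] [NormedAlgebra ℝ E]
    [NormedAddCommGroup V] [NormedSpace ℝ V]
    [NormedAddCommGroup B] [NormedSpace ℝ B]
    (act : E →L[ℝ] V →L[ℝ] V) (P : E → B) (P' : E → E →L[ℝ] B) (C : ℝ) : Prop where
  act_one : ∀ v, act 1 v = v
  act_mul : ∀ g h v, act (g * h) v = act g (act h v)
  deriv : ∀ g, HasStrictFDerivAt P (P' g) g
  zero_one : P 1 = 0
  zero_mul : ∀ g h, P g = 0 → P h = 0 → P (g * h) = 0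
  zero_inv : ∀ g : Eˣ, P (g : E) = 0 → P ((g⁻¹ : Eˣ) : E) = 0
  deriv_mul : ∀ g D, P' 1 D = 0 → ‖P' g (g * D)‖ ≤ C * ‖D‖ * ‖P g‖
  nonneg : 0 ≤ C

namespace GroupData

variable {E V B : Type*}
    [NormedRing E] [NormedAlgebra ℝ E] [CompleteSpace E]
    [NormedAddCommGroup V] [NormedSpace ℝ V]
    [NormedAddCommGroup B] [NormedSpace ℝ B]
    {act : E →L[ℝ] V →L[ℝ] V} {P : E → B} {P' : E → E →L[ℝ] B} {C : ℝ}

omit [CompleteSpace E] in
/-- A curve in `E` starting at `1` whose logarithmic derivative lies in the kernel of `P' 1` stays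
in the zero set of `P`. -/
theorem curve_mem (H : GroupData act P P' C) {b : ℝ} {α D : ℝ → E}
    (hα0 : α 0 = 1) (hαc : ContinuousOn α (Icc 0 b))
    (hα : ∀ t ∈ Ico 0 b, HasDerivAt α (α t * D t) t)
    (hD : ContinuousOn D (Icc 0 b)) (hD0 : ∀ t ∈ Ico 0 b, P' 1 (D t) = 0) :
    ∀ t ∈ Icc 0 b, P (α t) = 0 := by
  obtain ⟨K, hK⟩ : ∃ K, ∀ t ∈ Icc (0 : ℝ) b, ‖D t‖ ≤ K :=
    isCompact_Icc.exists_bound_of_continuousOn hD
  have hPc : Continuous P := continuous_iff_continuousAt.2 fun g => (H.deriv g).continuousAt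
  refine eq_zero_of_abs_deriv_le_mul_abs_self_of_eq_zero_right
    (f' := fun t => P' (α t) (α t * D t)) (K := C * K) (hPc.comp_continuousOn hαc) ?_ ?_ ?_
  · intro t ht
    have h1 : HasDerivAt (fun t => P (α t)) (P' (α t) (α t * D t)) t :=
      (H.deriv (α t)).hasFDerivAt.comp_hasDerivAt t (hα t ht)
    exact h1.hasDerivWithinAt
  · simp only [hα0, H.zero_one]
  · intro t ht
    refine (H.deriv_mul _ _ (hD0 t ht)).trans ?_
    gcongr
    · exact H.nonneg
    · exact hK t (Ico_subset_Icc_self ht)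

/-- The exponential of an element of the kernel of `P' 1` lies in the zero set of `P`. -/
theorem exp_mem (H : GroupData act P P' C) {D : E} (hD : P' 1 D = 0) : P (exp D) = 0 := by
  have := H.curve_mem (b := 1) (α := fun t : ℝ => exp (t • D)) (D := fun _ => D)
    (by simp) ?_ ?_ continuousOn_const (fun _ _ => hD) 1 (by simp)
  · simpa using this
  · intro t _
    exact (hasDerivAt_exp_smul_const (𝕂 := ℝ) D t).continuousAt.continuousWithinAt
  · intro t _
    exact hasDerivAt_exp_smul_const (𝕂 := ℝ) D t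

theorem exp_smul_mem (H : GroupData act P P' C) {D : E} (hD : P' 1 D = 0) (t : ℝ) :
    P (exp (t • D)) = 0 :=
  H.exp_mem (by simp [hD])

theorem exp_unit (Y : E) : ∃ u : Eˣ, (u : E) = exp Y ∧ ((u⁻¹ : Eˣ) : E) = exp (-Y) := by
  let _ : NormedAlgebra ℚ E := NormedAlgebra.restrictScalars ℚ ℝ E
  refine ⟨⟨exp Y, exp (-Y), ?_, ?_⟩, rfl, rfl⟩
  · rw [← exp_add_of_commute (Commute.refl Y).neg_right, add_neg_cancel, exp_zero]
  · rw [← exp_add_of_commute (Commute.refl Y).neg_left, neg_add_cancel, exp_zero]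

theorem conj_mem (H : GroupData act P P' C) {D : E} (hD : P' 1 D = 0) (g : Eˣ)
    (hg : P (g : E) = 0) : P' 1 (g * D * (g⁻¹ : Eˣ)) = 0 := by
  let _ : NormedAlgebra ℚ E := NormedAlgebra.restrictScalars ℚ ℝ E
  have h0 : HasDerivAt (fun s : ℝ => P (exp (s • (g * D * (g⁻¹ : Eˣ) : E))))
      (P' 1 (g * D * (g⁻¹ : Eˣ))) 0 := by
    have h1 := hasDerivAt_exp_smul_const (𝕂 := ℝ) (g * D * (g⁻¹ : Eˣ) : E) 0
    simp only [zero_smul, exp_zero, one_mul] at h1
    have h2 : HasFDerivAt P (P' 1) (exp ((0 : ℝ) • (g * D * (g⁻¹ : Eˣ) : E))) := by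
      simpa using (H.deriv 1).hasFDerivAt
    exact h2.comp_hasDerivAt (0 : ℝ) h1
  have h3 : (fun s : ℝ => P (exp (s • (g * D * (g⁻¹ : Eˣ) : E)))) = fun _ => 0 := by
    funext s
    have : s • (g * D * (g⁻¹ : Eˣ) : E) = g * (s • D) * (g⁻¹ : Eˣ) := by simp
    rw [this, exp_units_conj]
    exact H.zero_mul _ _ (H.zero_mul _ _ hg (H.exp_smul_mem hD s)) (H.zero_inv g hg)
  rw [h3] at h0
  exact h0.unique (hasDerivAt_const _ _)

/-- `y` lies in the orbit of `x` under the group of units in the zero set of `P`. -/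
def Rel (act : E →L[ℝ] V →L[ℝ] V) (P : E → B) (x y : V) : Prop :=
  ∃ g : Eˣ, P (g : E) = 0 ∧ y = act g x

omit [CompleteSpace E] in
theorem rel_refl (H : GroupData act P P' C) (x : V) : Rel act P x x :=
  ⟨1, by simpa using H.zero_one, by simp [H.act_one]⟩

omit [CompleteSpace E] in
theorem rel_symm (H : GroupData act P P' C) {x y : V} (h : Rel act P x y) : Rel act P y x := by
  obtain ⟨g, hg, rfl⟩ := h
  exact ⟨g⁻¹, H.zero_inv g hg, by rw [← H.act_mul]; simp [H.act_one]⟩

omit [CompleteSpace E] in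
theorem rel_trans (H : GroupData act P P' C) {x y z : V} (h : Rel act P x y)
    (h' : Rel act P y z) : Rel act P x z := by
  obtain ⟨g, hg, rfl⟩ := h
  obtain ⟨g', hg', rfl⟩ := h'
  exact ⟨g' * g, by simpa using H.zero_mul _ _ hg' hg, by rw [← H.act_mul]; simp⟩

variable [FiniteDimensional ℝ V]

omit [CompleteSpace E] in
/-- A linear section of the map `D ↦ act D x` on the Lie algebra. -/
theorem exists_section (act : E →L[ℝ] V →L[ℝ] V) (P' : E → E →L[ℝ] B) (x : V) :
    ∃ σ : V →L[ℝ] E, (∀ v, P' 1 (σ v) = 0) ∧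
      ∀ D, P' 1 D = 0 → act (σ (act D x)) x = act D x := by
  set g : Submodule ℝ E := LinearMap.ker (P' 1 : E →ₗ[ℝ] B) with hg
  set ev : g →ₗ[ℝ] V :=
    { toFun := fun D => act (D : E) x
      map_add' := fun a b => by simp
      map_smul' := fun a b => by simp } with hev
  obtain ⟨s0, hs0⟩ := ev.rangeRestrict.exists_rightInverse_of_surjective ev.range_rangeRestrict
  obtain ⟨s, hs⟩ := s0.exists_extend
  refine ⟨LinearMap.toContinuousLinearMap (g.subtype ∘ₗ s), fun v => ?_, fun D hD => ?_⟩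
  · have h0 : ((s v : g) : E) ∈ LinearMap.ker (P' 1 : E →ₗ[ℝ] B) := (s v).2
    rw [LinearMap.mem_ker] at h0
    exact h0
  · have hDg : D ∈ g := by rw [hg, LinearMap.mem_ker]; simpa using hD
    have h1 : ev ⟨D, hDg⟩ = act D x := rfl
    have h2 : s (act D x) = s0 ⟨ev ⟨D, hDg⟩, LinearMap.mem_range_self _ _⟩ := by
      exact LinearMap.congr_fun hs ⟨ev ⟨D, hDg⟩, LinearMap.mem_range_self _ _⟩
    have h3 := LinearMap.congr_fun hs0 ⟨ev ⟨D, hDg⟩, LinearMap.mem_range_self _ _⟩
    have h4 : ev (s0 ⟨ev ⟨D, hDg⟩, LinearMap.mem_range_self _ _⟩) = ev ⟨D, hDg⟩ := by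
      have := congrArg Subtype.val h3
      simpa using this
    have h5 : act ((s (act D x) : g) : E) x = act D x := by
      rw [h2]
      exact h4
    simpa using h5

/-- Local version: a linear vector field tangent to all orbits keeps a point in its orbit for small
nonnegative times. -/
theorem local_flow (H : GroupData act P P' C) {Δ : E}
    (hΔ : ∀ x, ∃ D, P' 1 D = 0 ∧ act Δ x = act D x) (x : V) :
    ∃ ε > 0, ∀ s ∈ Ico (0 : ℝ) ε, Rel act P x (act (exp (s • Δ)) x) := by
  obtain ⟨σ, hσ1, hσ2⟩ := exists_section act P' x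
  set v : E → E := fun g => g * σ (act (Ring.inverse g) (act Δ (act g x))) with hv
  have hvC : ContDiffAt ℝ 1 v 1 := by
    have hinv : ContDiffAt ℝ 1 (Ring.inverse : E → E) 1 := by
      simpa using contDiffAt_ringInverse ℝ (n := 1) (1 : Eˣ)
    have h1 : ContDiffAt ℝ 1 (fun g : E => act (Ring.inverse g)) 1 :=
      act.contDiff.contDiffAt.comp 1 hinv
    have h2 : ContDiffAt ℝ 1 (fun g : E => act Δ (act g x)) 1 :=
      (act Δ).contDiff.contDiffAt.comp 1 ((act.contDiff.contDiffAt).clm_apply contDiffAt_const)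
    exact contDiffAt_id.mul (σ.contDiff.contDiffAt.comp 1 (h1.clm_apply h2))
  obtain ⟨α, hα0, ε, hε, hα⟩ :=
    hvC.exists_forall_mem_closedBall_exists_eq_forall_mem_Ioo_hasDerivAt₀ 0
  simp only [zero_sub, zero_add] at hα
  have hαcont : ContinuousAt α 0 := (hα 0 ⟨by linarith, hε⟩).continuousAt
  have hunit : ∀ᶠ t in 𝓝 (0 : ℝ), IsUnit (α t) := by
    apply hαcont.eventually
    rw [hα0]
    exact Units.isOpen.mem_nhds isUnit_one
  obtain ⟨δ, hδ, hδu⟩ := Metric.eventually_nhds_iff.1 hunit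
  set b : ℝ := min ε δ / 2 with hb
  have hb0 : 0 < b := by have := lt_min hε hδ; positivity
  have hbε : b < ε := by have := min_le_left ε δ; have := lt_min hε hδ; linarith
  have hbδ : b < δ := by have := min_le_right ε δ; have := lt_min hε hδ; linarith
  have hαd : ∀ t ∈ Icc (0 : ℝ) b, HasDerivAt α (v (α t)) t := fun t ht =>
    hα t ⟨by linarith [ht.1], by linarith [ht.2]⟩
  have hαu : ∀ t ∈ Icc (0 : ℝ) b, IsUnit (α t) := fun t ht =>
    hδu (by rw [Real.dist_eq, sub_zero, abs_of_nonneg ht.1]; linarith [ht.2])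
  have hαc : ContinuousOn α (Icc 0 b) := fun t ht => (hαd t ht).continuousAt.continuousWithinAt
  set D : ℝ → E := fun t => σ (act (Ring.inverse (α t)) (act Δ (act (α t) x))) with hD
  have hDc : ContinuousOn D (Icc 0 b) := by
    intro t ht
    obtain ⟨u, hu⟩ := hαu t ht
    have h1 : ContinuousAt (fun t => Ring.inverse (α t)) t := by
      have : ContinuousAt (Ring.inverse : E → E) (α t) := by
        rw [← hu]; exact NormedRing.inverse_continuousAt u
      exact this.comp (hαd t ht).continuousAt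
    have h2 : ContinuousAt D t := by
      have h3 := (hαd t ht).continuousAt
      have h4 : ContinuousAt (fun t => act (Ring.inverse (α t))) t :=
        act.continuous.continuousAt.comp h1
      have h5 : ContinuousAt (fun t => act (α t) x) t :=
        (act.continuous.continuousAt.comp h3).clm_apply continuousAt_const
      exact σ.continuous.continuousAt.comp
        (h4.clm_apply ((act Δ).continuous.continuousAt.comp h5))
    exact h2.continuousWithinAt
  have hP : ∀ t ∈ Icc 0 b, P (α t) = 0 :=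
    H.curve_mem hα0 hαc (fun t ht => hαd t (Ico_subset_Icc_self ht)) hDc (fun t _ => hσ1 _)
  -- the curve `act (α t) x` is an integral curve of `Δ`
  have hy : ∀ t ∈ Icc 0 b, HasDerivAt (fun t => act (α t) x) (act Δ (act (α t) x)) t := by
    intro t ht
    obtain ⟨u, hu⟩ := hαu t ht
    have hPu : P (u : E) = 0 := by rw [hu]; exact hP t ht
    have h1 : HasDerivAt (fun t => act (α t) x) (act (v (α t)) x) t := by
      have := (act.hasFDerivAt (x := α t)).comp_hasDerivAt t (hαd t ht)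
      simpa using this.clm_apply (hasDerivAt_const t x)
    convert h1 using 1
    obtain ⟨D', hD', hD'2⟩ := hΔ (act (u : E) x)
    have h2 : act (Ring.inverse (α t)) (act Δ (act (α t) x)) =
        act (((u⁻¹ : Eˣ) : E) * D' * u) x := by
      rw [← hu, Ring.inverse_unit, H.act_mul, H.act_mul, hD'2]
    have h3 : P' 1 (((u⁻¹ : Eˣ) : E) * D' * u) = 0 := by
      have := H.conj_mem hD' u⁻¹ (H.zero_inv u hPu)
      simpa using this
    have h4 : act (v (α t)) x = act (α t) (act (Ring.inverse (α t)) (act Δ (act (α t) x))) := by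
      rw [hv]
      simp only
      rw [H.act_mul, h2, hσ2 _ h3]
    rw [h4, ← H.act_mul (α t), ← hu, Ring.inverse_unit, Units.mul_inv, H.act_one]
  have hz : ∀ t, HasDerivAt (fun t : ℝ => act (exp (t • Δ)) x) (act Δ (act (exp (t • Δ)) x)) t := by
    intro t
    have h0 := hasDerivAt_exp_smul_const' (𝕂 := ℝ) Δ t
    have := (act.hasFDerivAt (x := exp (t • Δ))).comp_hasDerivAt t h0
    have := this.clm_apply (hasDerivAt_const t x)
    rw [← H.act_mul]
    simpa using this
  have hfin : ∀ t ∈ Icc 0 b, act (α t) x - act (exp (t • Δ)) x = 0 := by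
    refine eq_zero_of_abs_deriv_le_mul_abs_self_of_eq_zero_right
      (f' := fun t => act Δ (act (α t) x) - act Δ (act (exp (t • Δ)) x)) (K := ‖act Δ‖) ?_ ?_ ?_ ?_
    · intro t ht
      exact ((hy t ht).sub (hz t)).continuousAt.continuousWithinAt
    · intro t ht
      exact ((hy t (Ico_subset_Icc_self ht)).sub (hz t)).hasDerivWithinAt
    · simp [hα0]
    · intro t ht
      rw [← map_sub]
      exact (act Δ).le_opNorm _
  refine ⟨b, hb0, fun s hs => ?_⟩
  obtain ⟨u, hu⟩ := hαu s (Ico_subset_Icc_self hs)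
  refine ⟨u, by rw [hu]; exact hP s (Ico_subset_Icc_self hs), ?_⟩
  rw [hu]
  exact (sub_eq_zero.1 (hfin s (Ico_subset_Icc_self hs))).symm

/-- **Global version**: a linear vector field tangent to all orbits preserves all orbits. -/
theorem global_flow (H : GroupData act P P' C) {Δ : E}
    (hΔ : ∀ x, ∃ D, P' 1 D = 0 ∧ act Δ x = act D x) (x : V) (t : ℝ) :
    Rel act P x (act (exp (t • Δ)) x) := by
  let _ : NormedAlgebra ℚ E := NormedAlgebra.restrictScalars ℚ ℝ E
  have hΔ' : ∀ x, ∃ D, P' 1 D = 0 ∧ act (-Δ) x = act D x := by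
    intro x
    obtain ⟨D, hD, hD'⟩ := hΔ x
    exact ⟨-D, by simp [hD], by simp [hD']⟩
  have hadd : ∀ (a b : ℝ) (x : V), act (exp ((a + b) • Δ)) x
      = act (exp (b • Δ)) (act (exp (a • Δ)) x) := by
    intro a b x
    rw [← H.act_mul, add_comm a b, add_smul, exp_add_of_commute]
    exact ((Commute.refl Δ).smul_left b).smul_right a
  -- two-sided local statement
  have hloc : ∀ t0 : ℝ, ∃ ε > 0, ∀ s, |s| < ε →
      Rel act P (act (exp (t0 • Δ)) x) (act (exp ((t0 + s) • Δ)) x) := by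
    intro t0
    obtain ⟨ε1, hε1, h1⟩ := H.local_flow hΔ (act (exp (t0 • Δ)) x)
    obtain ⟨ε2, hε2, h2⟩ := H.local_flow hΔ' (act (exp (t0 • Δ)) x)
    refine ⟨min ε1 ε2, lt_min hε1 hε2, fun s hs => ?_⟩
    rw [hadd]
    rcases le_or_gt 0 s with h | h
    · apply h1
      rw [abs_of_nonneg h] at hs
      exact ⟨h, hs.trans_le (min_le_left _ _)⟩
    · have := h2 (-s) ⟨by linarith, by
        rw [abs_of_neg h] at hs
        exact hs.trans_le (min_le_right _ _)⟩
      simpa using this
  set S : Set ℝ := {t | Rel act P x (act (exp (t • Δ)) x)} with hS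
  have hclopen : IsClopen S := by
    constructor
    · rw [← isOpen_compl_iff, Metric.isOpen_iff]
      intro t0 ht0
      obtain ⟨ε, hε, h⟩ := hloc t0
      refine ⟨ε, hε, fun t ht htS => ht0 ?_⟩
      have h3 := h (t - t0) (by simpa [Real.dist_eq] using ht)
      rw [add_sub_cancel] at h3
      exact H.rel_trans htS (H.rel_symm h3)
    · rw [Metric.isOpen_iff]
      intro t0 ht0
      obtain ⟨ε, hε, h⟩ := hloc t0
      refine ⟨ε, hε, fun t ht => ?_⟩
      have h3 := h (t - t0) (by simpa [Real.dist_eq] using ht)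
      rw [add_sub_cancel] at h3
      exact H.rel_trans ht0 h3
  have h0 : (0 : ℝ) ∈ S := by
    simp only [hS, mem_ofPred_eq, zero_smul, exp_zero, H.act_one]
    exact H.rel_refl x
  have hSuniv : S = univ := by
    rcases isClopen_iff.1 hclopen with h | h
    · rw [h] at h0; exact h0.elim
    · exact h
  have : t ∈ S := hSuniv ▸ mem_univ t
  exact this

omit [FiniteDimensional ℝ V] in
/-- An element that kills `x` has exponential fixing `x`. -/
theorem exp_fix (H : GroupData act P P' C) {Z : E} {x : V} (hZ : act Z x = 0) :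
    act (exp Z) x = x := by
  have hd : ∀ t : ℝ, HasDerivAt (fun t : ℝ => act (exp (t • Z)) x) 0 t := by
    intro t
    have h0 := hasDerivAt_exp_smul_const (𝕂 := ℝ) Z t
    have := (act.hasFDerivAt (x := exp (t • Z))).comp_hasDerivAt t h0
    have := this.clm_apply (hasDerivAt_const t x)
    simpa [H.act_mul, hZ] using this
  have h1 := is_const_of_deriv_eq_zero (f := fun t : ℝ => act (exp (t • Z)) x)
    (fun t => (hd t).differentiableAt) (fun t => (hd t).deriv) 1 0
  simpa [H.act_one] using h1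

/-- The tangent space at `x` of the orbit of `x`. -/
noncomputable def tangent (act : E →L[ℝ] V →L[ℝ] V) (P' : E → E →L[ℝ] B) (x : V) : Submodule ℝ V :=
  (LinearMap.ker (P' 1 : E →ₗ[ℝ] B)).map (act.flip x : E →ₗ[ℝ] V)

omit [CompleteSpace E] [FiniteDimensional ℝ V] in
theorem mem_tangent {x y : V} :
    y ∈ tangent act P' x ↔ ∃ D, P' 1 D = 0 ∧ y = act D x := by
  constructor
  · rintro ⟨D, hD, rfl⟩
    exact ⟨D, hD, rfl⟩
  · rintro ⟨D, hD, rfl⟩
    exact ⟨D, hD, rfl⟩

omit [FiniteDimensional ℝ V] in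
theorem contDiff_exp : ContDiff ℝ 1 (exp : E → E) :=
  contDiff_iff_contDiffAt.2 fun x => (exp_analytic (𝕂 := ℝ) x).contDiffAt

variable [FiniteDimensional ℝ E]

/-- Near the unit, a group element moves `x` as the exponential of an element of a fixed linear
slice of dimension the dimension of the orbit tangent. -/
theorem local_structure (H : GroupData act P P' C) {x : V} {σ : V →L[ℝ] E}
    (hσ1 : ∀ v, P' 1 (σ v) = 0)
    (hσ2 : ∀ D, P' 1 D = 0 → act (σ (act D x)) x = act D x) :
    ∃ U ∈ 𝓝 (1 : E), ∀ g ∈ U, P g = 0 → ∃ v : tangent act P' x,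
      act g x = act (exp (σ v)) x := by
  obtain ⟨m, hm⟩ := Submodule.exists_isCompl (LinearMap.ker (P' 1 : E →ₗ[ℝ] B))
  set g : Submodule ℝ E := LinearMap.ker (P' 1 : E →ₗ[ℝ] B) with hg
  set T : Submodule ℝ V := tangent act P' x with hT
  set L1 : (T × g × m) →L[ℝ] E := σ.comp (T.subtypeL.comp (ContinuousLinearMap.fst ℝ T (g × m)))
    with hL1
  set L2 : (T × g × m) →L[ℝ] E :=
    (ContinuousLinearMap.id ℝ E - σ.comp (act.flip x)).comp (g.subtypeL.comp
      ((ContinuousLinearMap.fst ℝ g m).comp (ContinuousLinearMap.snd ℝ T (g × m)))) with hL2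
  set L3 : (T × g × m) →L[ℝ] E := m.subtypeL.comp
      ((ContinuousLinearMap.snd ℝ g m).comp (ContinuousLinearMap.snd ℝ T (g × m))) with hL3
  have hexp : ∀ L : (T × g × m) →L[ℝ] E, HasStrictFDerivAt (fun p => exp (L p)) L 0 := by
    intro L
    have h0 : HasStrictFDerivAt (exp : E → E) (1 : E →L[ℝ] E) (L 0) := by
      simpa using hasStrictFDerivAt_exp_zero (𝕂 := ℝ) (𝔸 := E)
    exact (h0.comp 0 L.hasStrictFDerivAt).congr_fderiv
      (ContinuousLinearMap.ext fun p => rfl)
  set Ψ : (T × g × m) → E := fun p => exp (L1 p) * exp (L2 p) * exp (L3 p) with hΨ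
  have hΨd : HasStrictFDerivAt Ψ (L1 + L2 + L3) 0 := by
    have h1 := ((hexp L1).mul' (hexp L2)).mul' (hexp L3)
    refine h1.congr_fderiv ?_
    ext p <;> simp <;> abel
  have hsurj : (L1 + L2 + L3).range = ⊤ := by
    rw [LinearMap.range_eq_top]
    intro e
    obtain ⟨D, hD, M, hM, rfl⟩ : ∃ D ∈ g, ∃ M ∈ m, D + M = e := by
      have : e ∈ g ⊔ m := by rw [hm.sup_eq_top]; trivial
      exact Submodule.mem_sup.1 this
    refine ⟨(⟨act D x, mem_tangent.2 ⟨D, hD, rfl⟩⟩, ⟨D, hD⟩, ⟨M, hM⟩), ?_⟩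
    simp [hL1, hL2, hL3]
  have hmap := hΨd.map_nhds_eq_of_surj hsurj
  have hΨ0 : Ψ 0 = 1 := by simp [hΨ]
  rw [hΨ0] at hmap
  -- elements of `exp m` near `1` are not in the group
  have hM : ∀ᶠ M : m in 𝓝 0, P (exp (M : E)) = 0 → M = 0 := by
    have h1 : HasFDerivAt (fun M : m => P (exp (M : E))) ((P' 1).comp m.subtypeL) 0 := by
      have h0 : HasFDerivAt (exp : E → E) (1 : E →L[ℝ] E) (m.subtypeL 0) := by
        simpa using (hasStrictFDerivAt_exp_zero (𝕂 := ℝ) (𝔸 := E)).hasFDerivAt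
      have h2 : HasFDerivAt (fun M : m => exp (M : E)) (m.subtypeL) 0 :=
        (h0.comp 0 m.subtypeL.hasFDerivAt).congr_fderiv
          (ContinuousLinearMap.ext fun p => rfl)
      have h3 : HasFDerivAt P (P' 1) ((fun M : m => exp (M : E)) 0) := by
        simpa using (H.deriv 1).hasFDerivAt
      exact HasFDerivAt.comp (g := P) (0 : m) h3 h2
    have hker : LinearMap.ker ((P' 1).comp m.subtypeL : m →ₗ[ℝ] B) = ⊥ := by
      rw [LinearMap.ker_eq_bot']
      intro M hM
      have h4 : (M : E) ∈ g := by rw [hg, LinearMap.mem_ker]; exact hM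
      have h5 : (M : E) ∈ g ⊓ m := ⟨h4, M.2⟩
      rw [hm.inf_eq_bot] at h5
      exact Subtype.ext ((Submodule.mem_bot ℝ).1 h5)
    obtain ⟨K, -, hK⟩ := LinearMap.exists_antilipschitzWith _ hker
    have h6 := h1.eventually_ne (c := 0) ⟨K, hK⟩
    rw [eventually_nhdsWithin_iff] at h6
    filter_upwards [h6] with M hM h7
    by_contra h8
    exact hM h8 h7
  have hW : {p : T × g × m | P (exp (p.2.2 : E)) = 0 → p.2.2 = 0} ∈ 𝓝 (0 : T × g × m) := by
    have hc : ContinuousAt (fun p : T × g × m => p.2.2) 0 := by fun_prop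
    exact hc.eventually hM
  refine ⟨Ψ '' {p : T × g × m | P (exp (p.2.2 : E)) = 0 → p.2.2 = 0}, ?_, ?_⟩
  · rw [← hmap]
    exact image_mem_map hW
  · rintro _ ⟨p, hp, rfl⟩ hPp
    have h1 : P (exp (L1 p)) = 0 := H.exp_mem (hσ1 _)
    have hL2p : P' 1 (L2 p) = 0 := by
      have h3 : P' 1 ((p.2.1 : g) : E) = 0 := p.2.1.2
      simp [hL2, h3, hσ1]
    have h2 : P (exp (L2 p)) = 0 := H.exp_mem hL2p
    obtain ⟨u1, hu1, -⟩ := exp_unit (L1 p)
    obtain ⟨u2, hu2, -⟩ := exp_unit (L2 p)
    have h3 : P ((u1 * u2 : Eˣ) : E) = 0 := by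
      rw [Units.val_mul, hu1, hu2]
      exact H.zero_mul _ _ h1 h2
    have h4 : exp (L3 p) = (((u1 * u2)⁻¹ : Eˣ) : E) * Ψ p := by
      rw [hΨ]
      simp only
      rw [← hu1, ← hu2, ← Units.val_mul, ← mul_assoc, Units.inv_mul, one_mul]
    have h5 : P (exp (L3 p)) = 0 := by
      rw [h4]
      exact H.zero_mul _ _ (H.zero_inv _ h3) hPp
    have h6 : p.2.2 = 0 := hp h5
    have h7 : L3 p = 0 := by simp [hL3, h6]
    have h8 : act (L2 p) x = 0 := by
      have h9 : P' 1 ((p.2.1 : g) : E) = 0 := p.2.1.2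
      simp [hL2, hσ2 _ h9]
    refine ⟨p.1, ?_⟩
    have h10 : act (exp (L2 p)) x = x := H.exp_fix h8
    rw [hΨ]
    simp only
    rw [h7, exp_zero, mul_one, H.act_mul, h10]
    rfl

/-- The orbit of `x` has Hausdorff dimension at most the dimension of its tangent space. -/
theorem dimH_orbit_le (H : GroupData act P P' C) (x : V) :
    dimH {y | Rel act P x y} ≤ Module.finrank ℝ (tangent act P' x) := by
  obtain ⟨σ, hσ1, hσ2⟩ := exists_section act P' x
  obtain ⟨U, hU, hUg⟩ := H.local_structure hσ1 hσ2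
  set G : Set E := {g | IsUnit g ∧ P g = 0} with hG
  set f : E → Set E := fun g => {k | Ring.inverse g * k ∈ U} with hf
  have hfG : ∀ g ∈ G, f g ∈ 𝓝[G] g := by
    intro g hg
    apply mem_nhdsWithin_of_mem_nhds
    have hc : ContinuousAt (fun k => Ring.inverse g * k) g := by fun_prop
    have h1 : Ring.inverse g * g = 1 := Ring.inverse_mul_cancel g hg.1
    have := hc.preimage_mem_nhds (t := U) (by rw [h1]; exact hU)
    exact this
  have : ProperSpace E := FiniteDimensional.proper ℝ E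
  obtain ⟨t, htG, htc, ht⟩ := TopologicalSpace.countable_cover_nhdsWithin hfG
  have hcover : {y | Rel act P x y} ⊆ ⋃ g ∈ t, range (fun v : tangent act P' x =>
      act g (act (exp (σ v)) x)) := by
    rintro y ⟨k, hk, rfl⟩
    have hkG : (k : E) ∈ G := ⟨k.isUnit, hk⟩
    obtain ⟨g, hgt, hgk⟩ := mem_iUnion₂.1 (ht hkG)
    obtain ⟨⟨u, hu⟩, hgP⟩ := htG hgt
    subst hu
    have h1 : ((u⁻¹ : Eˣ) : E) * k ∈ U := by
      have : Ring.inverse (u : E) * k ∈ U := hgk
      rwa [Ring.inverse_unit] at this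
    obtain ⟨v, hv⟩ := hUg _ h1 (H.zero_mul _ _ (H.zero_inv u hgP) hk)
    refine mem_iUnion₂.2 ⟨u, hgt, v, ?_⟩
    simp only
    rw [← hv, ← H.act_mul, ← mul_assoc, Units.mul_inv, one_mul]
  refine (dimH_mono hcover).trans ?_
  rw [dimH_bUnion htc]
  refine iSup₂_le fun g _ => ?_
  apply ContDiff.dimH_range_le
  have h1 : ContDiff ℝ 1 (fun v : tangent act P' x => exp (σ (v : V))) :=
    contDiff_exp.comp (σ.contDiff.comp (tangent act P' x).subtypeL.contDiff)
  exact (act g).contDiff.comp ((act.contDiff.comp h1).clm_apply contDiff_const)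

/-- If the one-parameter group of `X` preserves the orbit of `x`, then `X` is tangent to the orbit
at `x`. -/
theorem tangent_of_flow (H : GroupData act P P' C) {X : E} {x : V}
    (hX : ∀ t : ℝ, Rel act P x (act (exp (t • X)) x)) :
    ∃ D, P' 1 D = 0 ∧ act X x = act D x := by
  rw [← mem_tangent]
  by_contra hw
  obtain ⟨σ, hσ1, hσ2⟩ := exists_section act P' x
  set T : Submodule ℝ V := tangent act P' x with hT
  set w : V := act X x with hwdef
  set L : (T × ℝ) →L[ℝ] V := T.subtypeL.comp (ContinuousLinearMap.fst ℝ T ℝ) +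
    (ContinuousLinearMap.snd ℝ T ℝ).smulRight w with hL
  have hLker : LinearMap.ker (L : (T × ℝ) →ₗ[ℝ] V) = ⊥ := by
    rw [LinearMap.ker_eq_bot']
    rintro ⟨v, t⟩ h
    have h1 : (v : V) + t • w = 0 := by simpa [hL] using h
    have ht : t = 0 := by
      by_contra ht
      apply hw
      have h2 : w = (-t⁻¹) • (v : V) := by
        have h3 : (v : V) = -(t • w) := eq_neg_of_add_eq_zero_left h1
        rw [h3, smul_neg, neg_smul, neg_neg, smul_smul, inv_mul_cancel₀ ht, one_smul]
      rw [h2]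
      exact T.smul_mem _ v.2
    subst ht
    have h4 : (v : V) = 0 := by simpa using h1
    have h5 : v = 0 := Subtype.ext h4
    simp [h5]
  obtain ⟨π, hπ⟩ := LinearMap.exists_leftInverse_of_injective _ hLker
  set πc : V →L[ℝ] (T × ℝ) := LinearMap.toContinuousLinearMap π with hπc
  have hπL : ∀ p, πc (L p) = p := fun p => LinearMap.congr_fun hπ p
  set Φ : (T × ℝ) → V := fun p => act (exp (σ (p.1 : V)) * exp (p.2 • X)) x with hΦ
  have hΦd : HasStrictFDerivAt Φ L 0 := by
    have h1 : HasStrictFDerivAt (fun p : T × ℝ => exp (σ (p.1 : V)))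
        (σ.comp (T.subtypeL.comp (ContinuousLinearMap.fst ℝ T ℝ))) 0 := by
      have h0 : HasStrictFDerivAt (exp : E → E) (1 : E →L[ℝ] E)
          ((σ.comp (T.subtypeL.comp (ContinuousLinearMap.fst ℝ T ℝ))) 0) := by
        simpa using hasStrictFDerivAt_exp_zero (𝕂 := ℝ) (𝔸 := E)
      exact (h0.comp 0
        (σ.comp (T.subtypeL.comp (ContinuousLinearMap.fst ℝ T ℝ))).hasStrictFDerivAt).congr_fderiv
          (ContinuousLinearMap.ext fun p => rfl)
    have h2 : HasStrictFDerivAt (fun p : T × ℝ => exp (p.2 • X))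
        ((ContinuousLinearMap.snd ℝ T ℝ).smulRight X) 0 := by
      have h0 : HasStrictFDerivAt (exp : E → E) (1 : E →L[ℝ] E)
          (((ContinuousLinearMap.snd ℝ T ℝ).smulRight X) 0) := by
        simpa using hasStrictFDerivAt_exp_zero (𝕂 := ℝ) (𝔸 := E)
      exact (h0.comp 0
        ((ContinuousLinearMap.snd ℝ T ℝ).smulRight X).hasStrictFDerivAt).congr_fderiv
          (ContinuousLinearMap.ext fun p => rfl)
    have h3 := h1.mul' h2
    have h4 := (act.flip x).hasStrictFDerivAt.comp 0 h3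
    refine h4.congr_fderiv ?_
    have h5 : ∀ v : T, act (σ (v : V)) x = v := by
      intro v
      obtain ⟨D, hD, hv⟩ := mem_tangent.1 v.2
      rw [hv]
      exact hσ2 D hD
    ext p
    · simp [hL, h5]
    · simp [hL, hwdef]
  have hπΦ : HasStrictFDerivAt (fun p => πc (Φ p)) (πc.comp L) 0 :=
    πc.hasStrictFDerivAt.comp 0 hΦd
  have hsurj : (πc.comp L).range = ⊤ := by
    rw [LinearMap.range_eq_top]
    intro p
    exact ⟨p, hπL p⟩
  have hmap := hπΦ.map_nhds_eq_of_surj hsurj
  have hint : (interior (range (fun p => πc (Φ p)))).Nonempty := by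
    refine ⟨πc (Φ 0), mem_interior_iff_mem_nhds.2 ?_⟩
    rw [← hmap]
    exact range_mem_map
  have hdim := Real.dimH_of_nonempty_interior hint
  have hsub : range (fun p => πc (Φ p)) ⊆ πc '' {y | Rel act P x y} := by
    rintro _ ⟨p, rfl⟩
    refine ⟨Φ p, ?_, rfl⟩
    obtain ⟨u, hu, -⟩ := exp_unit (σ (p.1 : V))
    refine H.rel_trans (hX p.2) ⟨u, ?_, ?_⟩
    · rw [hu]; exact H.exp_mem (hσ1 _)
    · rw [hΦ, hu]
      simp only
      rw [H.act_mul]
  have h1 : dimH (range (fun p => πc (Φ p))) ≤ Module.finrank ℝ T :=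
    (dimH_mono hsub).trans ((πc.lipschitz.dimH_image_le _).trans (H.dimH_orbit_le x))
  rw [hdim, Module.finrank_prod, Module.finrank_self] at h1
  have h2 : Module.finrank ℝ T + 1 ≤ Module.finrank ℝ T := by exact_mod_cast h1
  omega

/-- **Main abstract theorem.** -/
theorem flow_iff (H : GroupData act P P' C) (X : E) :
    (∀ (t : ℝ) (x : V), Rel act P x (act (exp (t • X)) x)) ↔
      ∀ x : V, ∃ D, P' 1 D = 0 ∧ act X x = act D x :=
  ⟨fun h x => H.tangent_of_flow fun t => h t x, fun h t x => H.global_flow h x t⟩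

end GroupData

end Pool.Agent.H49
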