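import Mathlib
import Pool.Agent.H49.LocAutAbstract

/-!
Real version: a finite-dimensional real space with a bilinear product `μ` and an operator `J`.
The group consists of the invertible operators preserving `μ` and commuting with `J`.
-/

set_option autoImplicit false

namespace Pool.Agent.H49

open Set Filter Topology NormedSpace ContinuousLinearMap

section

variable {A : Type*} [NormedAddCommGroup A] [NormedSpace ℝ A]

/-- The defect of `g` from being an endomorphism of `μ` commuting with `J`. -/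
noncomputable def defect (μ : A →L[ℝ] A →L[ℝ] A) (J : A →L[ℝ] A) (g : A →L[ℝ] A) :
    (A →L[ℝ] A →L[ℝ] A) × (A →L[ℝ] A) :=
  (((compL ℝ A A A) g).comp μ - ((compL ℝ A A A).flip g).comp (μ.comp g), g * J - J * g)

theorem defect_fst (μ : A →L[ℝ] A →L[ℝ] A) (J g : A →L[ℝ] A) (a b : A) :
    (defect μ J g).1 a b = g (μ a b) - μ (g a) (g b) := by
  simp [defect]

theorem defect_snd (μ : A →L[ℝ] A →L[ℝ] A) (J g : A →L[ℝ] A) :
    (defect μ J g).2 = g * J - J * g := by
  simp [defect]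

theorem defect_eq_zero (μ : A →L[ℝ] A →L[ℝ] A) (J g : A →L[ℝ] A) :
    defect μ J g = 0 ↔ (∀ a b, g (μ a b) = μ (g a) (g b)) ∧ ∀ a, g (J a) = J (g a) := by
  rw [Prod.ext_iff]
  constructor
  · rintro ⟨h1, h2⟩
    refine ⟨fun a b => ?_, fun a => ?_⟩
    · have := congrArg (fun F => F a b) h1
      simp only [defect_fst] at this
      exact sub_eq_zero.1 this
    · have := congrArg (fun F => F a) h2
      simp only [defect_snd] at this
      exact sub_eq_zero.1 this
  · rintro ⟨h1, h2⟩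
    constructor
    · ext a b
      rw [defect_fst, h1]
      simp
    · ext a
      rw [defect_snd]
      simp [h2]

/-- The derivative of `defect`. -/
noncomputable def defect' (μ : A →L[ℝ] A →L[ℝ] A) (J : A →L[ℝ] A) (g : A →L[ℝ] A) :
    (A →L[ℝ] A) →L[ℝ] (A →L[ℝ] A →L[ℝ] A) × (A →L[ℝ] A) :=
  ((((compL ℝ A (A →L[ℝ] A) (A →L[ℝ] A)).flip μ).comp (compL ℝ A A A)) -
    ((compL ℝ A (A →L[ℝ] A) (A →L[ℝ] A) ((compL ℝ A A A).flip g)).comp
        (compL ℝ A A (A →L[ℝ] A) μ) +
      ((compL ℝ A (A →L[ℝ] A) (A →L[ℝ] A)).flip (μ.comp g)).comp (compL ℝ A A A).flip)).prod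
   ((compL ℝ A A A).flip J - compL ℝ A A A J)

theorem defect'_fst (μ : A →L[ℝ] A →L[ℝ] A) (J g H : A →L[ℝ] A) (a b : A) :
    (defect' μ J g H).1 a b = H (μ a b) - (μ (H a) (g b) + μ (g a) (H b)) := by
  simp [defect']

theorem defect'_snd (μ : A →L[ℝ] A →L[ℝ] A) (J g H : A →L[ℝ] A) :
    (defect' μ J g H).2 = H * J - J * H := by
  simp only [defect', prod_apply, sub_apply, flip_apply, compL_apply]
  rfl

theorem hasStrictFDerivAt_defect (μ : A →L[ℝ] A →L[ℝ] A) (J g : A →L[ℝ] A) :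
    HasStrictFDerivAt (defect μ J) (defect' μ J g) g := by
  have h1 : HasStrictFDerivAt (fun g : A →L[ℝ] A => ((compL ℝ A A A) g).comp μ)
      (((compL ℝ A (A →L[ℝ] A) (A →L[ℝ] A)).flip μ).comp (compL ℝ A A A)) g :=
    (((compL ℝ A (A →L[ℝ] A) (A →L[ℝ] A)).flip μ).comp (compL ℝ A A A)).hasStrictFDerivAt
  have h2 : HasStrictFDerivAt (fun g : A →L[ℝ] A => μ.comp g) (compL ℝ A A (A →L[ℝ] A) μ) g :=
    (compL ℝ A A (A →L[ℝ] A) μ).hasStrictFDerivAt
  have h3 : HasStrictFDerivAt (fun g : A →L[ℝ] A => (compL ℝ A A A).flip g)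
      (compL ℝ A A A).flip g := (compL ℝ A A A).flip.hasStrictFDerivAt
  have h4 := h1.sub (h3.clm_comp h2)
  have h5 : HasStrictFDerivAt (fun g : A →L[ℝ] A => g * J - J * g)
      ((compL ℝ A A A).flip J - compL ℝ A A A J) g :=
    ((compL ℝ A A A).flip J - compL ℝ A A A J).hasStrictFDerivAt
  exact h4.prodMk h5

theorem groupData (μ : A →L[ℝ] A →L[ℝ] A) (J : A →L[ℝ] A) :
    GroupData (ContinuousLinearMap.id ℝ (A →L[ℝ] A)) (defect μ J) (defect' μ J) 2 where
  act_one v := by simp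
  act_mul g h v := by simp
  deriv g := hasStrictFDerivAt_defect μ J g
  zero_one := by
    rw [defect_eq_zero]
    simp
  zero_mul g h hg hh := by
    rw [defect_eq_zero] at hg hh ⊢
    refine ⟨fun a b => ?_, fun a => ?_⟩
    · simp [hg.1, hh.1]
    · simp [hg.2, hh.2]
  zero_inv g hg := by
    rw [defect_eq_zero] at hg ⊢
    have h1 : ∀ a, (g : A →L[ℝ] A) (((g⁻¹ : (A →L[ℝ] A)ˣ) : A →L[ℝ] A) a) = a := fun a => by
      rw [← mul_apply_eq_comp, Units.mul_inv, one_apply_eq_self]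
    have h2 : ∀ a, ((g⁻¹ : (A →L[ℝ] A)ˣ) : A →L[ℝ] A) ((g : A →L[ℝ] A) a) = a := fun a => by
      rw [← mul_apply_eq_comp, Units.inv_mul, one_apply_eq_self]
    refine ⟨fun a b => ?_, fun a => ?_⟩
    · have := hg.1 (((g⁻¹ : (A →L[ℝ] A)ˣ) : A →L[ℝ] A) a)
        (((g⁻¹ : (A →L[ℝ] A)ˣ) : A →L[ℝ] A) b)
      rw [h1, h1] at this
      rw [← this, h2]
    · have := hg.2 (((g⁻¹ : (A →L[ℝ] A)ˣ) : A →L[ℝ] A) a)
      rw [h1] at this
      rw [← this, h2]
  deriv_mul g D hD := by
    have hD1 : ∀ a b, D (μ a b) = μ (D a) b + μ a (D b) := by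
      intro a b
      have := congrArg (fun F => F.1 a b) hD
      simp only [defect'_fst] at this
      exact sub_eq_zero.1 (by simpa using this)
    have hD2 : D * J = J * D := by
      have := congrArg (fun F => F.2) hD
      simp only [defect'_snd] at this
      exact sub_eq_zero.1 (by simpa using this)
    have h1 : ∀ a b, (defect' μ J g (g * D)).1 a b =
        (defect μ J g).1 (D a) b + (defect μ J g).1 a (D b) := by
      intro a b
      rw [defect'_fst, defect_fst, defect_fst]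
      simp only [mul_apply_eq_comp, hD1, map_add]
      abel
    have h2 : (defect' μ J g (g * D)).2 = (defect μ J g).2 * D := by
      rw [defect'_snd, defect_snd, sub_mul, mul_assoc, hD2]
      noncomm_ring
    rw [Prod.norm_def]
    have h3 : ‖(defect μ J g).1‖ ≤ ‖defect μ J g‖ := norm_fst_le _
    have h4 : ‖(defect μ J g).2‖ ≤ ‖defect μ J g‖ := norm_snd_le _
    apply max_le
    · refine opNorm_le_bound₂ _ (by positivity) fun a b => ?_
      rw [h1]
      calc ‖(defect μ J g).1 (D a) b + (defect μ J g).1 a (D b)‖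
          ≤ ‖(defect μ J g).1 (D a) b‖ + ‖(defect μ J g).1 a (D b)‖ := norm_add_le _ _
        _ ≤ ‖(defect μ J g).1‖ * ‖D a‖ * ‖b‖ + ‖(defect μ J g).1‖ * ‖a‖ * ‖D b‖ :=
            add_le_add (le_opNorm₂ _ _ _) (le_opNorm₂ _ _ _)
        _ ≤ ‖defect μ J g‖ * (‖D‖ * ‖a‖) * ‖b‖ + ‖defect μ J g‖ * ‖a‖ * (‖D‖ * ‖b‖) := by
            gcongr
            · exact D.le_opNorm a
            · exact D.le_opNorm b
        _ = 2 * ‖D‖ * ‖defect μ J g‖ * ‖a‖ * ‖b‖ := by ring
    · rw [h2]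
      calc ‖(defect μ J g).2 * D‖ ≤ ‖(defect μ J g).2‖ * ‖D‖ := norm_mul_le _ _
        _ ≤ ‖defect μ J g‖ * ‖D‖ := by gcongr
        _ ≤ 2 * ‖D‖ * ‖defect μ J g‖ := by
            have h5 : 0 ≤ ‖D‖ * ‖defect μ J g‖ := by positivity
            linarith
  nonneg := by norm_num

/-- Real version of the theorem. -/
theorem real_flow_iff [FiniteDimensional ℝ A] (μ : A →L[ℝ] A →L[ℝ] A) (J X : A →L[ℝ] A) :
    (∀ (t : ℝ) (x : A), ∃ g : (A →L[ℝ] A)ˣ,
      ((∀ a b, (g : A →L[ℝ] A) (μ a b) = μ ((g : A →L[ℝ] A) a) ((g : A →L[ℝ] A) b)) ∧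
        ∀ a, (g : A →L[ℝ] A) (J a) = J ((g : A →L[ℝ] A) a)) ∧
        exp (t • X) x = (g : A →L[ℝ] A) x) ↔
      ∀ x : A, ∃ D : A →L[ℝ] A,
        ((∀ a b, D (μ a b) = μ (D a) b + μ a (D b)) ∧ ∀ a, D (J a) = J (D a)) ∧
          X x = D x := by
  have hc : CompleteSpace A := FiniteDimensional.complete ℝ A
  have h := (groupData μ J).flow_iff X
  have hP : ∀ D, defect' μ J 1 D = 0 ↔
      (∀ a b, D (μ a b) = μ (D a) b + μ a (D b)) ∧ ∀ a, D (J a) = J (D a) := by
    intro D
    rw [Prod.ext_iff]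
    constructor
    · rintro ⟨h1, h2⟩
      refine ⟨fun a b => ?_, fun a => ?_⟩
      · have := congrArg (fun F => F a b) h1
        simp only [defect'_fst] at this
        exact sub_eq_zero.1 (by simpa using this)
      · have := congrArg (fun F => F a) h2
        simp only [defect'_snd] at this
        exact sub_eq_zero.1 (by simpa using this)
    · rintro ⟨h1, h2⟩
      constructor
      · ext a b
        rw [defect'_fst, h1]
        simp
      · ext a
        rw [defect'_snd]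
        simp [h2]
  simp only [GroupData.Rel, defect_eq_zero, hP, ContinuousLinearMap.id_apply] at h
  exact h

end

end Pool.Agent.H49
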