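import Mathlib
import Pool.Agent.H49.LocAutReal

/-!
Tangent algebra of the group of local automorphisms versus local derivations.

For every finite-dimensional (not necessarily associative) algebra over `ℝ` or `ℂ` the tangent
algebra of `LocAut` equals `LocDer` as a subset of the endomorphism algebra.
-/

set_option autoImplicit false

namespace Pool.Agent.H49.LocAutMain

open Set NormedSpace

variable {𝕜 A : Type*} [RCLike 𝕜] [NormedAddCommGroup A] [NormedSpace 𝕜 A]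

/-- `φ` is an automorphism of the algebra whose product is the bilinear map `mul`: a bijective
linear map preserving the product. -/
def IsAut (mul : A →ₗ[𝕜] A →ₗ[𝕜] A) (φ : A →L[𝕜] A) : Prop :=
  Function.Bijective φ ∧ ∀ a b, φ (mul a b) = mul (φ a) (φ b)

/-- `D` is a derivation of the algebra whose product is the bilinear map `mul`. -/
def IsDer (mul : A →ₗ[𝕜] A →ₗ[𝕜] A) (D : A →L[𝕜] A) : Prop :=
  ∀ a b, D (mul a b) = mul (D a) b + mul a (D b)

/-- The local automorphisms: linear maps agreeing at each point with some automorphism. -/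
def LocAut (mul : A →ₗ[𝕜] A →ₗ[𝕜] A) : Set (A →L[𝕜] A) :=
  {φ | ∀ x, ∃ ψ, IsAut mul ψ ∧ φ x = ψ x}

/-- The local derivations: linear maps agreeing at each point with some derivation. -/
def LocDer (mul : A →ₗ[𝕜] A →ₗ[𝕜] A) : Set (A →L[𝕜] A) :=
  {Δ | ∀ x, ∃ D, IsDer mul D ∧ Δ x = D x}

/-- The tangent algebra of a subgroup `G` of `GL(A)`: all `X` with `exp (t X) ∈ G` for every real
number `t`. -/
def tangentAlgebra (G : Set (A →L[𝕜] A)) : Set (A →L[𝕜] A) :=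
  {X | ∀ t : ℝ, exp ((t : 𝕜) • X) ∈ G}

section aux

theorem smul_decomp (c : 𝕜) (a : A) :
    c • a = ((RCLike.re c : ℝ) : 𝕜) • a + ((RCLike.im c : ℝ) : 𝕜) • ((RCLike.I : 𝕜) • a) := by
  rw [smul_smul, ← add_smul, RCLike.re_add_im]

theorem isAut_one (mul : A →ₗ[𝕜] A →ₗ[𝕜] A) : IsAut mul (1 : A →L[𝕜] A) :=
  ⟨Function.bijective_id, fun _ _ => rfl⟩

theorem isAut_mul {mul : A →ₗ[𝕜] A →ₗ[𝕜] A} {φ ψ : A →L[𝕜] A} (hφ : IsAut mul φ)
    (hψ : IsAut mul ψ) : IsAut mul (φ * ψ) :=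
  ⟨hφ.1.comp hψ.1, fun a b => by
    change φ (ψ (mul a b)) = mul (φ (ψ a)) (φ (ψ b))
    rw [hψ.2, hφ.2]⟩

variable [FiniteDimensional 𝕜 A]

theorem exists_inv {mul : A →ₗ[𝕜] A →ₗ[𝕜] A} {φ : A →L[𝕜] A} (hφ : IsAut mul φ) :
    ∃ ψ : A →L[𝕜] A, IsAut mul ψ ∧ (∀ a, φ (ψ a) = a) ∧ ∀ a, ψ (φ a) = a := by
  set e : A ≃ₗ[𝕜] A := LinearEquiv.ofBijective (φ : A →ₗ[𝕜] A) hφ.1 with he
  have h1 : ∀ a, φ (e.symm a) = a := fun a => e.apply_symm_apply a
  have h2 : ∀ a, e.symm (φ a) = a := fun a => e.symm_apply_apply a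
  refine ⟨LinearMap.toContinuousLinearMap (e.symm : A →ₗ[𝕜] A), ⟨?_, fun a b => ?_⟩, ?_, ?_⟩
  · exact e.symm.bijective
  · change e.symm (mul a b) = mul (e.symm a) (e.symm b)
    apply hφ.1.injective
    rw [h1, hφ.2, h1, h1]
  · exact h1
  · exact h2

end aux

/-- The equality of sets. -/
theorem tangent_eq [FiniteDimensional 𝕜 A] (mul : A →ₗ[𝕜] A →ₗ[𝕜] A) :
    tangentAlgebra (LocAut mul) = LocDer mul := by
  let _ : NormedSpace ℝ A := NormedSpace.restrictScalars ℝ 𝕜 A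
  have hst : IsScalarTower ℝ 𝕜 A := inferInstance
  have hfd : FiniteDimensional ℝ A := FiniteDimensional.trans ℝ 𝕜 A
  have hcs : CompleteSpace A := FiniteDimensional.complete ℝ A
  let _ : NormedAlgebra ℚ (A →L[𝕜] A) := NormedAlgebra.restrictScalars ℚ 𝕜 (A →L[𝕜] A)
  set μ : A →L[ℝ] A →L[ℝ] A := mul.toContinuousBilinearMap.bilinearRestrictScalars ℝ with hμ
  have hμa : ∀ a b, μ a b = mul a b := fun a b => rfl
  set J : A →L[ℝ] A := ((RCLike.I : 𝕜) • (1 : A →L[𝕜] A)).restrictScalars ℝ with hJ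
  have hJa : ∀ a, J a = (RCLike.I : 𝕜) • a := fun a => rfl
  have hreal : ∀ (t : ℝ) (a : A), t • a = ((t : 𝕜)) • a := fun t a => by
    rw [RCLike.real_smul_eq_coe_smul (K := 𝕜)]
  -- real-linear maps commuting with `J` are `𝕜`-linear
  have hlin : ∀ g : A →L[ℝ] A, (∀ a, g (J a) = J (g a)) → ∃ ψ : A →L[𝕜] A, ∀ a, ψ a = g a := by
    intro g hg
    refine ⟨LinearMap.toContinuousLinearMap
      { toFun := g, map_add' := map_add g, map_smul' := fun c a => ?_ }, fun a => rfl⟩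
    rw [smul_decomp c a, map_add, ← hreal, ← hreal, map_smul, map_smul, ← hJa, hg, hJa]
    simp only [RingHom.id_apply]
    rw [smul_decomp c (g a), hreal, hreal]
  have hJlin : ∀ (ψ : A →L[𝕜] A) (a : A), ψ (J a) = J (ψ a) := by
    intro ψ a
    rw [hJa, map_smul, hJa]
  -- exponential
  let ρ : (A →L[𝕜] A) →+* (A →L[ℝ] A) :=
    { toFun := fun f => f.restrictScalars ℝ
      map_one' := rfl
      map_mul' := fun _ _ => rfl
      map_zero' := rfl
      map_add' := fun _ _ => rfl }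
  have hρ : Continuous ρ := ContinuousLinearMap.continuous_restrictScalars ℝ
  let _ : Algebra ℚ (A →L[ℝ] A) := (NormedAlgebra.restrictScalars ℚ ℝ (A →L[ℝ] A)).toAlgebra
  have hexp : ∀ (X : A →L[𝕜] A) (t : ℝ) (x : A),
      (exp ((t : 𝕜) • X)) x = (exp (t • X.restrictScalars ℝ)) x := by
    intro X t x
    have h1 : ρ (exp ((t : 𝕜) • X)) = exp (ρ ((t : 𝕜) • X)) := map_exp ρ hρ _
    have h2 : ρ ((t : 𝕜) • X) = t • X.restrictScalars ℝ := by
      ext a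
      change (t : 𝕜) • X a = t • X a
      rw [hreal]
    rw [h2] at h1
    exact congrArg (fun f : A →L[ℝ] A => f x) h1
  ext X
  have key := Pool.Agent.H49.real_flow_iff μ J (X.restrictScalars ℝ)
  constructor
  · intro hX x
    have h1 := key.1 (fun t x => ?_) x
    · obtain ⟨D, ⟨hD1, hD2⟩, hD3⟩ := h1
      obtain ⟨D', hD'⟩ := hlin D hD2
      refine ⟨D', fun a b => ?_, ?_⟩
      · rw [hD', hD', hD', ← hμa, hD1]
        rfl
      · rw [hD', ← hD3]
        rfl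
    · obtain ⟨ψ, hψ, hψx⟩ := hX t x
      obtain ⟨ψ', hψ', h3, h4⟩ := exists_inv hψ
      refine ⟨⟨ψ.restrictScalars ℝ, ψ'.restrictScalars ℝ, ?_, ?_⟩, ⟨?_, ?_⟩, ?_⟩
      · ext a
        exact h3 a
      · ext a
        exact h4 a
      · intro a b
        exact hψ.2 a b
      · intro a
        exact hJlin ψ a
      · rw [← hexp]
        exact hψx
  · intro hX t x
    obtain ⟨g, ⟨hg1, hg2⟩, hg3⟩ := key.2 (fun x => by
      obtain ⟨D, hD, hDx⟩ := hX x
      exact ⟨D.restrictScalars ℝ, ⟨fun a b => hD a b, fun a => hJlin D a⟩, hDx⟩) t x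
    obtain ⟨ψ, hψ⟩ := hlin g hg2
    refine ⟨ψ, ⟨?_, fun a b => ?_⟩, ?_⟩
    · have h1 : ∀ a, (g : A →L[ℝ] A) (((g⁻¹ : (A →L[ℝ] A)ˣ) : A →L[ℝ] A) a) = a := fun a => by
        rw [← mul_apply_eq_comp, Units.mul_inv, one_apply_eq_self]
      have h2 : ∀ a, ((g⁻¹ : (A →L[ℝ] A)ˣ) : A →L[ℝ] A) ((g : A →L[ℝ] A) a) = a := fun a => by
        rw [← mul_apply_eq_comp, Units.inv_mul, one_apply_eq_self]
      have h3 : (ψ : A → A) = (g : A →L[ℝ] A) := funext hψ
      rw [h3]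
      exact Function.bijective_iff_has_inverse.2 ⟨_, h2, h1⟩
    · rw [hψ, hψ, hψ]
      exact hg1 a b
    · rw [hexp, hψ]
      exact hg3

theorem locAut_isUnit [FiniteDimensional 𝕜 A] {mul : A →ₗ[𝕜] A →ₗ[𝕜] A} {φ : A →L[𝕜] A}
    (hφ : φ ∈ LocAut mul) : IsUnit φ := by
  have hinj : Function.Injective (φ : A →ₗ[𝕜] A) := by
    rw [← LinearMap.ker_eq_bot, LinearMap.ker_eq_bot']
    intro x hx
    obtain ⟨ψ, hψ, h⟩ := hφ x
    apply hψ.1.injective
    rw [← h, map_zero]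
    exact hx
  have hsurj : Function.Surjective (φ : A →ₗ[𝕜] A) := LinearMap.injective_iff_surjective.1 hinj
  set e : A ≃ₗ[𝕜] A := LinearEquiv.ofBijective (φ : A →ₗ[𝕜] A) ⟨hinj, hsurj⟩ with he
  exact ⟨⟨φ, LinearMap.toContinuousLinearMap (e.symm : A →ₗ[𝕜] A),
    ContinuousLinearMap.ext fun a => e.apply_symm_apply a,
    ContinuousLinearMap.ext fun a => e.symm_apply_apply a⟩, rfl⟩

/-- `LocAut` as a subgroup of `GL(A)`, the group of invertible elements of the endomorphism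
algebra. -/
def locAutGroup [FiniteDimensional 𝕜 A] (mul : A →ₗ[𝕜] A →ₗ[𝕜] A) : Subgroup (A →L[𝕜] A)ˣ where
  carrier := {g | (g : A →L[𝕜] A) ∈ LocAut mul}
  one_mem' := fun x => ⟨1, isAut_one mul, rfl⟩
  mul_mem' := by
    intro g h hg hh x
    obtain ⟨ψ, hψ, h1⟩ := hh x
    obtain ⟨χ, hχ, h2⟩ := hg ((h : A →L[𝕜] A) x)
    refine ⟨χ * ψ, isAut_mul hχ hψ, ?_⟩
    change (g : A →L[𝕜] A) ((h : A →L[𝕜] A) x) = χ (ψ x)
    rw [h2, h1]
  inv_mem' := by
    intro g hg x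
    obtain ⟨ψ, hψ, h1⟩ := hg (((g⁻¹ : (A →L[𝕜] A)ˣ) : A →L[𝕜] A) x)
    obtain ⟨χ, hχ, h2, h3⟩ := exists_inv hψ
    refine ⟨χ, hχ, ?_⟩
    have h4 : (g : A →L[𝕜] A) (((g⁻¹ : (A →L[𝕜] A)ˣ) : A →L[𝕜] A) x) = x := by
      rw [← mul_apply_eq_comp, Units.mul_inv, one_apply_eq_self]
    have h5 : x = ψ (((g⁻¹ : (A →L[𝕜] A)ˣ) : A →L[𝕜] A) x) := h4.symm.trans h1
    calc ((g⁻¹ : (A →L[𝕜] A)ˣ) : A →L[𝕜] A) x
        = χ (ψ (((g⁻¹ : (A →L[𝕜] A)ˣ) : A →L[𝕜] A) x)) := (h3 _).symm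
      _ = χ x := by rw [← h5]

/-- `LocDer` is a linear subspace. -/
def locDerSubmodule (mul : A →ₗ[𝕜] A →ₗ[𝕜] A) : Submodule 𝕜 (A →L[𝕜] A) where
  carrier := LocDer mul
  zero_mem' := fun x => ⟨0, fun a b => by simp, rfl⟩
  add_mem' := by
    intro X Y hX hY x
    obtain ⟨D, hD, h1⟩ := hX x
    obtain ⟨D', hD', h2⟩ := hY x
    refine ⟨D + D', fun a b => ?_, ?_⟩
    · simp only [add_apply, hD a b, hD' a b, map_add, LinearMap.add_apply]
      abel
    · simp [h1, h2]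
  smul_mem' := by
    intro c X hX x
    obtain ⟨D, hD, h1⟩ := hX x
    refine ⟨c • D, fun a b => ?_, ?_⟩
    · simp only [smul_apply, hD a b, map_smul, LinearMap.smul_apply, smul_add]
    · simp [h1]

theorem exp_mem_locAut [FiniteDimensional 𝕜 A] {mul : A →ₗ[𝕜] A →ₗ[𝕜] A} {X : A →L[𝕜] A}
    (hX : X ∈ LocDer mul) : exp X ∈ LocAut mul := by
  rw [← tangent_eq] at hX
  simpa using hX 1

theorem locDer_lie_mem [FiniteDimensional 𝕜 A] {mul : A →ₗ[𝕜] A →ₗ[𝕜] A} {X Y : A →L[𝕜] A}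
    (hX : X ∈ LocDer mul) (hY : Y ∈ LocDer mul) : X * Y - Y * X ∈ LocDer mul := by
  have hcs : CompleteSpace A := FiniteDimensional.complete 𝕜 A
  let _ : NormedAlgebra ℚ (A →L[𝕜] A) := NormedAlgebra.restrictScalars ℚ 𝕜 (A →L[𝕜] A)
  have hconj : ∀ s : 𝕜, exp (s • X) * Y * exp (s • (-X)) ∈ LocDer mul := by
    intro s
    rw [← tangent_eq] at hY ⊢
    intro t
    obtain ⟨u, hu, hu'⟩ : ∃ u : (A →L[𝕜] A)ˣ, (u : A →L[𝕜] A) = exp (s • X) ∧
        ((u⁻¹ : (A →L[𝕜] A)ˣ) : A →L[𝕜] A) = exp (s • (-X)) := by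
      refine ⟨⟨exp (s • X), exp (s • (-X)), ?_, ?_⟩, rfl, rfl⟩
      · rw [smul_neg, ← exp_add_of_commute (Commute.refl (s • X)).neg_right, add_neg_cancel,
          exp_zero]
      · rw [smul_neg, ← exp_add_of_commute (Commute.refl (s • X)).neg_left, neg_add_cancel,
          exp_zero]
    have huG : u ∈ locAutGroup mul := by
      change (u : A →L[𝕜] A) ∈ LocAut mul
      rw [hu]
      exact exp_mem_locAut ((locDerSubmodule mul).smul_mem s hX)
    obtain ⟨w, hw⟩ := locAut_isUnit (hY t)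
    have hwG : w ∈ locAutGroup mul := by
      change (w : A →L[𝕜] A) ∈ LocAut mul
      rw [hw]
      exact hY t
    have h1 : (t : 𝕜) • (exp (s • X) * Y * exp (s • (-X))) =
        (u : A →L[𝕜] A) * ((t : 𝕜) • Y) * ((u⁻¹ : (A →L[𝕜] A)ˣ) : A →L[𝕜] A) := by
      rw [← hu, ← hu', mul_smul_comm, smul_mul_assoc]
    rw [h1, exp_units_conj, ← hw]
    exact (locAutGroup mul).mul_mem ((locAutGroup mul).mul_mem huG hwG)
      ((locAutGroup mul).inv_mem huG)
  have hder : HasDerivAt (fun s : 𝕜 => exp (s • X) * Y * exp (s • (-X))) (X * Y - Y * X) 0 := by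
    have h1 : HasDerivAt (fun s : 𝕜 => exp (s • X)) (exp ((0 : 𝕜) • X) * X) 0 :=
      hasDerivAt_exp_smul_const (𝕂 := 𝕜) X 0
    have h2 : HasDerivAt (fun s : 𝕜 => exp (s • (-X))) (exp ((0 : 𝕜) • (-X)) * (-X)) 0 :=
      hasDerivAt_exp_smul_const (𝕂 := 𝕜) (-X) 0
    have h3 := (h1.mul_const Y).mul h2
    simp only [zero_smul, exp_zero, one_mul, mul_one, mul_neg, ← sub_eq_add_neg] at h3
    exact h3
  have hclosed : IsClosed (locDerSubmodule mul : Set (A →L[𝕜] A)) :=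
    Submodule.closed_of_finiteDimensional _
  have htend := hasDerivAt_iff_tendsto_slope.1 hder
  refine hclosed.mem_of_tendsto htend (Filter.Eventually.of_forall fun s => ?_)
  rw [slope_def_module]
  exact (locDerSubmodule mul).smul_mem _ ((locDerSubmodule mul).sub_mem (hconj s) (hconj 0))

/-- **Main theorem.** Let `A` be a finite-dimensional algebra over `𝕜 = ℝ` or `ℂ` with product the
bilinear map `mul`.  The local automorphisms form a subgroup `G` of `GL(A)`, the local derivations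
form a linear subspace `L` of `End(A)` closed under the commutator bracket (a Lie subalgebra), and
`L` is exactly the tangent algebra of `G`. -/
theorem main {𝕜 A : Type*} [RCLike 𝕜] [NormedAddCommGroup A] [NormedSpace 𝕜 A]
    [FiniteDimensional 𝕜 A] (mul : A →ₗ[𝕜] A →ₗ[𝕜] A) :
    (∃ G : Subgroup (A →L[𝕜] A)ˣ, LocAut mul = (fun g : (A →L[𝕜] A)ˣ => (g : A →L[𝕜] A)) '' G) ∧
    ∃ L : Submodule 𝕜 (A →L[𝕜] A), (∀ X ∈ L, ∀ Y ∈ L, X * Y - Y * X ∈ L) ∧
      (L : Set (A →L[𝕜] A)) = LocDer mul ∧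
      (L : Set (A →L[𝕜] A)) = tangentAlgebra (LocAut mul) := by
  refine ⟨⟨locAutGroup mul, ?_⟩, locDerSubmodule mul, fun X hX Y hY => locDer_lie_mem hX hY, rfl,
    (tangent_eq mul).symm⟩
  ext φ
  constructor
  · intro hφ
    obtain ⟨u, hu⟩ := locAut_isUnit hφ
    refine ⟨u, ?_, hu⟩
    change (u : A →L[𝕜] A) ∈ LocAut mul
    rwa [hu]
  · rintro ⟨u, hu, rfl⟩
    exact hu

end Pool.Agent.H49.LocAutMain
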