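import Mathlib

namespace H49.SplitUFD

/-- In a factorial domain, if `Q ≠ 0` divides every product `A i * B j`, then `Q = Q1 * Q2`
with `Q1` dividing every `A i` and `Q2` dividing every `B j`. -/
theorem exists_split {R : Type*} [CommRing R] [IsDomain R] [UniqueFactorizationMonoid R]
    {ι κ : Type*} (A : ι → R) (B : κ → R) (Q : R) (hQ : Q ≠ 0)
    (h : ∀ i j, Q ∣ A i * B j) :
    ∃ Q1 Q2 : R, Q = Q1 * Q2 ∧ (∀ i, Q1 ∣ A i) ∧ (∀ j, Q2 ∣ B j) := by
  revert hQ h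
  refine UniqueFactorizationMonoid.induction_on_prime Q ?_ ?_ ?_
  · intro h0; exact absurd rfl h0
  · intro x hx _ _
    exact ⟨x, 1, (mul_one x).symm, fun i => hx.dvd, fun j => one_dvd _⟩
  · intro a p ha hp ih _ h
    obtain ⟨Q1, Q2, hQQ, h1, h2⟩ := ih ha (fun i j => (Dvd.intro_left p rfl).trans (h i j))
    have hQ1 : Q1 ≠ 0 := by rintro rfl; exact ha (by rw [hQQ, zero_mul])
    have hQ2 : Q2 ≠ 0 := by rintro rfl; exact ha (by rw [hQQ, mul_zero])
    choose u hu using h1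
    choose v hv using h2
    have key : ∀ i j, p ∣ u i * v j := by
      intro i j
      obtain ⟨c, hc⟩ := h i j
      refine ⟨c, ?_⟩
      have : (Q1 * Q2) * (u i * v j) = (Q1 * Q2) * (p * c) := by
        calc (Q1 * Q2) * (u i * v j) = A i * B j := by rw [hu i, hv j]; ring
          _ = p * a * c := hc
          _ = (Q1 * Q2) * (p * c) := by rw [hQQ]; ring
      exact mul_left_cancel₀ (mul_ne_zero hQ1 hQ2) this
    by_cases hall : ∀ i, p ∣ u i
    · refine ⟨p * Q1, Q2, by rw [hQQ]; ring, fun i => ?_, fun j => ⟨v j, hv j⟩⟩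
      obtain ⟨w, hw⟩ := hall i
      exact ⟨w, by rw [hu i, hw]; ring⟩
    · push Not at hall
      obtain ⟨i0, hi0⟩ := hall
      refine ⟨Q1, p * Q2, by rw [hQQ]; ring, fun i => ⟨u i, hu i⟩, fun j => ?_⟩
      rcases hp.dvd_or_dvd (key i0 j) with h3 | h3
      · exact absurd h3 hi0
      · obtain ⟨w, hw⟩ := h3
        exact ⟨w, by rw [hv j, hw]; ring⟩

theorem exists_split_mv {α : Type*} {ι κ : Type*} (A : ι → MvPolynomial α ℤ)
    (B : κ → MvPolynomial α ℤ) (Q : MvPolynomial α ℤ) (hQ : Q ≠ 0)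
    (h : ∀ i j, Q ∣ A i * B j) :
    ∃ Q1 Q2 : MvPolynomial α ℤ, Q = Q1 * Q2 ∧ (∀ i, Q1 ∣ A i) ∧ (∀ j, Q2 ∣ B j) :=
  exists_split A B Q hQ h

end H49.SplitUFD
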